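import Mathlib
import Pool.Agent.T9h31.AbFin
import Pool.Agent.T9h31.Ra4

/-!
# The `3`-part of the Birch and Swinnerton-Dyer conjecture for `y² = x³ - 16` over abelian extensions of
3-power degree of `ℚ(√-3)`

`E : y² = x³ - 16` (conductor `432` over `ℚ`), `F = ℚ(√-3)`, `K / F` is an abelian extension of degree `3 ^ n`,
unramified above `3` and at all the primes `P` of `F` modulo which `-1` is a square (so `K / F` ramifies
only at primes of norm `3` modulo `4`).  There is no bound on the degree, the exponent or the number of ramified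
primes.  Then all the terms of the formula of Birch and Swinnerton-Dyer for `E / K` are units at `3`:

* `L(E / K, s)` is continued to `ℂ`, it does not vanish at `1`, and `L(E / K, 1) √|disc K| / (2 A)^(3 ^ n)` is
  a rational number prime to `3`, `A` the area of the period lattice of `dx / (2 y)`;
* `E(K)` is finite of order prime to `3`;
* `Ш(E / K)` has no element of order `3`;
* the equation is minimal at all the finite places and all the points over the completions have nonsingular
  reduction: all the Tamagawa numbers are `1`.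

The extension is given with its Artin map, of some modulus `c` (by class field theory, which is not in the
library, every abelian extension has one).  For the subfields `K` of `F(ζ_m)`, `m` a product of powers of primes
`7` modulo `12`, we prove that there is such an Artin map of modulus `m`.

The base case `K = F` and the way from `F` to `K` are both proved here.  The primes above `3` are the ones that divide
the order of the group, the number of roots of unity of `F` and the discriminant of `F`, and `E` has additive,
potentially supersingular reduction there.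

## The proof

*The values* (`T9h31/AbIso`, `AbX4`, `AbBase`, `AbVal`).  The Hecke character of `E` is `ψ ε`, `ψ` the one of
`y² + y = x³`, of conductor `3`, and `ε(P) = (-1 / P)`.  For a character `χ` of `Gal(K / F)` the value of
`L(ψ ε χ, s)` at `1` is, up to a unit at `3` and the period, `∑ ε(x) χ(x) h(x)` over the orbits of the units in
`(𝓞 F / 4 c)ˣ`, where `h(x) = √-3 (1 / (1 + ℘(Ω x / 4 c)³) - 1 / 3)` on `℘'² = 4 ℘³ + 1`.  The
isogeny `√-3` is `℘(√-3 u) = - (1 + ℘(u)³) / (3 ℘(u)²)`.  Taking a point where `|℘|`, and then one where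
`|℘(u) - ℘(√-3 u)|`, is maximal, one finds that `|℘| = 1`, `|1 + ℘³| = |3|`, `|℘(u) - ℘(√-3 u)|² ≤ |3|` at all the
points of order prime to `3` that are not of order two, and that `h` is integral.  As `χ` has 3-power order, the sum
is congruent to the one for `χ = 1`, which is `∏ (1 - ε(P) / π)` over the `P` dividing `c`, a unit as
`ε(P) = - 1` and `π = 1` modulo `3`, times the sum for `c = 1`; and that one is computed: the numbers
`℘(Ω x / 4)³` are the roots of `2 t² + 10 t - 1`, and the square of the sum is `-4`.

*The factorization* (`AbLoc`, `AbFld`, `AbLK`, `AbMain`).  The local factors of `E / K` at all the places, by counting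
points on the twist, and the Euler factors at the primes above `c`, which are units.

*The Selmer group* (`AbQi` to `AbSha`).  The multiplication by `√-3` on `E` has a kernel that is trivialized by
`√-1`.  A class in its Selmer group over `K` gives `b ∈ K(√-1)` with `b b̄` a cube and `(b)` the cube of an ideal away
from some places.  `Gal(K / F)` is a 3-group and acts on these classes; if there is one that is not trivial,
there is a fixed one, which descends to `F(√-1) = ℚ(ζ₁₂)`, where `b` is a cube as the ring of integers is principal and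
by an inspection of the units at the place above `3`.

*The local terms* (`AbTam`, `AbBld`).  Minimality and nonsingular reduction above `2` and `3`, and the power of
`3` in the discriminant of `K`.

*Rationality* (`Ra1` to `Ra4`).  The automorphisms `σ` of `ℂ` that fix `√-3` act on the division points of the
lattice through a number `u` of `F`, hence on the sums that give the values, which are permuted with the characters;
the product over all the `χ` is multiplied by `ε(u)`, which is also how `σ` acts on `√-1`.  The quotient is a norm from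
`F` to `ℚ` times a rational number, as `√|disc K| / √3^(3 ^ n)` is rational.
-/

set_option autoImplicit false

namespace Pool.Agent.T9h31.Moved.ThreePartAbelianExtensions

open NumberField IsDedekindDomain WeierstrassCurve
open Pool.Agent.TH841.NF.D (Sha)
open Pool.Agent.Y696 (IsArtin NonsingRed)
open scoped Classical

/-- The curve `E : y² = x³ - 16`. -/
def curve (K : Type) [Field K] : WeierstrassCurve K := ⟨0, 0, 0, 0, -16⟩

/-- The `3`-part of the conjecture of Birch and Swinnerton-Dyer for `E` over `K`, where all the terms are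
units at `3`.  The field `K` is totally complex, the `L`-series of `E / K` has a meromorphic continuation `L`,
analytic and not zero at `1`, and for the lattice `Λ` of the periods of `dx / (2 y)` (that is `g₂ = 0`,
`g₃ = 64`) the number `L(1) √|disc K| / (2 A)^(r₂)` is rational, not zero, without `3` in its numerator and in its
denominator, where `A` is the area of a fundamental parallelogram and `r₂` the number of the complex places.
The group `E(K)` is finite of order prime to `3`, the `3`-primary part of the Tate-Shafarevich group is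
trivial, and at every finite place the equation is minimal and all the local points have nonsingular reduction. -/
structure ThreePart (K : Type) [Field K] [NumberField K] : Prop where
  complex : InfinitePlace.nrRealPlaces K = 0
  analytic : ∃ L : ℂ → ℂ, MeromorphicOn L Set.univ ∧
    (∀ s : ℂ, 3 / 2 < s.re →
      LSeriesSummable ((fun n : ℤ => (n : ℂ)) ∘ (curve K).LFunction) s ∧
        L s = (curve K).LSeries s) ∧
    AnalyticAt ℂ L 1 ∧ L 1 ≠ 0 ∧
    ∀ Λ : PeriodPair, Λ.g₂ = 0 → Λ.g₃ = 64 → ∃ q : ℚ, q ≠ 0 ∧ padicValRat 3 q = 0 ∧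
      (q : ℂ) = L 1 * (Real.sqrt |(discr K : ℝ)| : ℝ) /
        ((2 * |((starRingEnd ℂ) Λ.ω₁ * Λ.ω₂).im| : ℝ) : ℂ) ^ InfinitePlace.nrComplexPlaces K
  finite : Finite (curve K).toAffine.Point
  card : ¬ 3 ∣ Nat.card (curve K).toAffine.Point
  sha : ∀ (j : ℕ) (x : Sha (curve K)), 3 ^ j • x = 0 → x = 0
  loc : ∀ v : HeightOneSpectrum (𝓞 K),
    IsMinimal (v.adicCompletionIntegers K) ((curve K).baseChange (v.adicCompletion K)) ∧
    ∀ P : ((curve K).baseChange (v.adicCompletion K)).toAffine.Point,
      NonsingRed Valued.v ((curve K).baseChange (v.adicCompletion K)) P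

theorem result (F K : Type) [Field F] [NumberField F] [IsCyclotomicExtension {3} ℚ F] [Field K]
    [NumberField K] [Algebra F K] [IsGalois F K] (n : ℕ) (hn : Module.finrank F K = 3 ^ n) :
    (∃ Λ : PeriodPair, Λ.g₂ = 0 ∧ Λ.g₃ = 64) ∧
    (∀ (c : 𝓞 F) (art : (𝓞 F ⧸ Ideal.span {c})ˣ →* Gal(K/F)), IsArtin c art →
      (∀ P : HeightOneSpectrum (𝓞 F), c ∈ P.asIdeal →
        (3 : 𝓞 F) ∉ P.asIdeal ∧ ∀ x : 𝓞 F, x ^ 2 + 1 ∉ P.asIdeal) →
      ThreePart K) ∧
    (∀ (m : ℕ) [NeZero m] (M : Type) [Field M] [NumberField M] [Algebra K M] [Algebra F M]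
      [IsScalarTower F K M] [IsCyclotomicExtension {m} F M],
      (∀ q : ℕ, q.Prime → q ∣ m → q % 12 = 7) →
      (∃ art : (𝓞 F ⧸ Ideal.span {(m : 𝓞 F)})ˣ →* Gal(K/F), IsArtin (m : 𝓞 F) art) ∧
      (∀ P : HeightOneSpectrum (𝓞 F), (m : 𝓞 F) ∈ P.asIdeal →
        (3 : 𝓞 F) ∉ P.asIdeal ∧ ∀ x : 𝓞 F, x ^ 2 + 1 ∉ P.asIdeal) ∧
      ThreePart K) := by
  have key : ∀ (c : 𝓞 F) (art : (𝓞 F ⧸ Ideal.span {c})ˣ →* Gal(K/F)), IsArtin c art →
      (∀ P : HeightOneSpectrum (𝓞 F), c ∈ P.asIdeal →
        (3 : 𝓞 F) ∉ P.asIdeal ∧ ∀ x : 𝓞 F, x ^ 2 + 1 ∉ P.asIdeal) → ThreePart K := by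
    intro c art h hc
    have hA : Pool.Agent.Y696.Art c art := ⟨h.surj, h.unr, h.frob⟩
    have hun := Pool.Agent.T9h31.Ab.un_of_art hA hc
    have hf := Pool.Agent.T9h31.Ab.qi_fact (Pool.Agent.T9h31.Ab.no_sq_k (F := F) (k := K) hn)
    obtain ⟨r1, r2⟩ := Pool.Agent.T9h31.Ab.places3 (F := F) (K := K) hn
    obtain ⟨p1, p2⟩ := Pool.Agent.T9h31.Ab.pts_three (F := F) (k := K) hn hun
    obtain ⟨L, l1, l2, l3, l4, l5⟩ := Pool.Agent.T9h31.Ra.analytic_K3R hn hA hc
    refine ⟨r1, ⟨L, l1, l2, l3, l4, ?_⟩, p1, p2,
      Pool.Agent.T9h31.Ab.sha_pow (F := F) hn hun, fun v =>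
      ⟨Pool.Agent.T9h31.Ab.min_all hun v, Pool.Agent.T9h31.Ab.red_all hn hun v⟩⟩
    rw [r2]
    exact l5
  refine ⟨Pool.Agent.T9h31.Ab.exists_lat64, key, ?_⟩
  intro m _ M _ _ _ _ _ _ h
  obtain ⟨art, ha⟩ := Pool.Agent.T9h31.Ab.art_ex3 (F := F) (K := K) (L := M) m h
  have hc := Pool.Agent.T9h31.Ab.cyc_cond (F := F) (NeZero.ne m) h
  exact ⟨⟨art, ha⟩, hc, key _ art ha hc⟩

end Pool.Agent.T9h31.Moved.ThreePartAbelianExtensions
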