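import Mathlib
import Pool.Agent.T9h31.Sm10

/-!
# The `3`-part of the Birch and Swinnerton-Dyer conjecture for `y² = x³ - 16` over number fields of
degree `3 ^ n`

`E : y² = x³ - 16` (conductor `432` over `ℚ`).  `k` is a number field of degree `3 ^ n` (so it does not contain
`√-3`), not necessarily Galois over `ℚ`, such that `k(√-3)` is Galois over `F = ℚ(√-3)` with an Artin map of some
modulus `c` (so `k(√-3) / F` is abelian), and no prime that divides `c` lies above `3` or has `-1` as a square
in its residue field.  Then the `3`-part of the conjecture of Birch and Swinnerton-Dyer holds for `E / k`, all the terms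
being units at `3`:

* `L(E / k, s)` is continued to `ℂ`, it does not vanish at `1`, and
  `L(E / k, 1) √|disc k| / (ω^(r₁) (2 A)^(r₂))` is a rational number prime to `3`, where `ω` is the least
  positive real period of `dx / (2 y)`, `A` the area of its period lattice, `r₁` and `r₂` the numbers of the real and the
  complex places of `k`;
* `E(k)` is finite of order prime to `3`, `Ш(E / k)` has no element of order `3`;
* the equation is minimal at all the finite places and all the points over the completions have nonsingular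
  reduction: all the Tamagawa numbers are `1`.

For the subfields `k` of degree `3 ^ n` of `ℚ(ζ_{3m})`, all the primes that divide `m` being `7` modulo `12`, the
Artin map of modulus `m` is proved to exist, so this is unconditional.

## The proof

The `L`-function of `E / k` is one half of the one over `K = k(√-3)`: it is the product over the characters `χ` of
`Gal(K / F)` of the `L(ψ ε χ, s)`, times Euler factors at the primes above `c` (`T9h31/Sm3`, `Sm4`); the values
of these at `1` are units at `3` times the period `Ω` (files `Ab*` of the same directory).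

*Rationality* (`Ra1` to `Ra4`, `Sm5`, `Sm6`).  The automorphisms `σ` of `ℂ` that fix `√-3` act on the division
points of the lattice through a number `u` of `F` (the group of endomorphisms of the curve `℘'² = 4 ℘³ + 1`
over the coordinates), hence on the sums that give the values, which are permuted with the characters; the product
over all the `χ` is multiplied by the quadratic symbol `ε(u)`, which is also how `σ` acts on `√-1`.  The value is real as
the coefficients are; so the quotient by the `3 ^ n`-th power of the real period is rational.  The real period is prime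
to `√-3` times the generator `√-1 Ω / 2` of the lattice, since the point of order `√-3` has `x = 0`, `y² = -16`
and is not real.

*The discriminant* (`Sm7`, `Sm8`).  `K / ℚ` is Galois of degree `2 · 3 ^ n`; the inertia groups at the primes
above `3` and the groups generated by the complex conjugations have order two, so that they are conjugate; this gives
that the power of `3` in `disc k` is `3 ^ (r₂)`.

*The arithmetic* (`Sm1`, `Sm2`) descends from `K`.
-/

set_option autoImplicit false

namespace Pool.Agent.T9h31.Moved.ThreePartWithoutCubeRoots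

open NumberField IsDedekindDomain WeierstrassCurve
open Pool.Agent.TH841.NF.D (Sha)
open Pool.Agent.Y696 (IsArtin NonsingRed)
open scoped Classical

/-- The curve `E : y² = x³ - 16`. -/
def curve (K : Type) [Field K] : WeierstrassCurve K := ⟨0, 0, 0, 0, -16⟩

/-- `Λ` is the lattice of the periods of `dx / (2 y)` on `E` (that is `g₂ = 0` and `g₃ = 64`) and `ω` is its
least positive real element. -/
structure IsPeriods (Λ : PeriodPair) (ω : ℝ) : Prop where
  g₂ : Λ.g₂ = 0
  g₃ : Λ.g₃ = 64
  real : IsLeast {t : ℝ | 0 < t ∧ (t : ℂ) ∈ Λ.lattice} ω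

/-- The `3`-part of the conjecture of Birch and Swinnerton-Dyer for `E` over `k`, where all the terms are
units at `3`.  The `L`-series of `E / k` has a meromorphic continuation `L`, analytic and not zero at `1`;
`L(1) √|disc k| / (ω^(r₁) (2 A)^(r₂))` is a rational number, not zero, without `3` in its numerator and in its
denominator, where `ω` is the least positive real period, `A` the area of a fundamental parallelogram of the lattice
of periods, `r₁` and `r₂` the numbers of the real and of the complex places.  The group `E(k)` is finite of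
order prime to `3`, the `3`-primary part of the Tate-Shafarevich group is trivial, and at every finite place the
equation is minimal and all the local points have nonsingular reduction. -/
structure ThreePart (k : Type) [Field k] [NumberField k] : Prop where
  analytic : ∃ L : ℂ → ℂ, MeromorphicOn L Set.univ ∧
    (∀ s : ℂ, 3 / 2 < s.re →
      LSeriesSummable ((fun n : ℤ => (n : ℂ)) ∘ (curve k).LFunction) s ∧
        L s = (curve k).LSeries s) ∧
    AnalyticAt ℂ L 1 ∧ L 1 ≠ 0 ∧
    ∀ (Λ : PeriodPair) (ω : ℝ), IsPeriods Λ ω → ∃ q : ℚ, q ≠ 0 ∧ padicValRat 3 q = 0 ∧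
      (q : ℂ) = L 1 * (Real.sqrt |(discr k : ℝ)| : ℝ) /
        ((ω : ℂ) ^ InfinitePlace.nrRealPlaces k *
          ((2 * |((starRingEnd ℂ) Λ.ω₁ * Λ.ω₂).im| : ℝ) : ℂ) ^ InfinitePlace.nrComplexPlaces k)
  finite : Finite (curve k).toAffine.Point
  card : ¬ 3 ∣ Nat.card (curve k).toAffine.Point
  sha : ∀ (j : ℕ) (x : Sha (curve k)), 3 ^ j • x = 0 → x = 0
  loc : ∀ v : HeightOneSpectrum (𝓞 k),
    IsMinimal (v.adicCompletionIntegers k) ((curve k).baseChange (v.adicCompletion k)) ∧
    ∀ P : ((curve k).baseChange (v.adicCompletion k)).toAffine.Point,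
      NonsingRed Valued.v ((curve k).baseChange (v.adicCompletion k)) P

theorem result :
    (∃ (Λ : PeriodPair) (ω : ℝ), IsPeriods Λ ω) ∧
    (∀ (k : Type) [Field k] [NumberField k] (n : ℕ), Module.finrank ℚ k = 3 ^ n →
      ∀ (F K : Type) [Field F] [NumberField F] [IsCyclotomicExtension {3} ℚ F] [Field K]
        [NumberField K] [Algebra F K] [Algebra k K] [IsGalois F K], Module.finrank k K = 2 →
      ∀ (c : 𝓞 F) (art : (𝓞 F ⧸ Ideal.span {c})ˣ →* Gal(K/F)), IsArtin c art →
      (∀ P : HeightOneSpectrum (𝓞 F), c ∈ P.asIdeal →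
        (3 : 𝓞 F) ∉ P.asIdeal ∧ ∀ x : 𝓞 F, x ^ 2 + 1 ∉ P.asIdeal) →
      ThreePart k) ∧
    (∀ (m : ℕ) [NeZero m] (M : Type) [Field M] [NumberField M]
      [IsCyclotomicExtension {3 * m} ℚ M] (k : IntermediateField ℚ M) (n : ℕ),
      Module.finrank ℚ k = 3 ^ n → (∀ q : ℕ, q.Prime → q ∣ m → q % 12 = 7) → ThreePart k) := by
  have key : ∀ (k : Type) [Field k] [NumberField k] (n : ℕ), Module.finrank ℚ k = 3 ^ n →
      ∀ (F K : Type) [Field F] [NumberField F] [IsCyclotomicExtension {3} ℚ F] [Field K]
        [NumberField K] [Algebra F K] [Algebra k K] [IsGalois F K], Module.finrank k K = 2 →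
      ∀ (c : 𝓞 F) (art : (𝓞 F ⧸ Ideal.span {c})ˣ →* Gal(K/F)), IsArtin c art →
      (∀ P : HeightOneSpectrum (𝓞 F), c ∈ P.asIdeal →
        (3 : 𝓞 F) ∉ P.asIdeal ∧ ∀ x : 𝓞 F, x ^ 2 + 1 ∉ P.asIdeal) →
      ThreePart k := by
    intro k _ _ n hn F K _ _ _ _ _ _ _ _ h2 c art h hc
    have hA : Pool.Agent.Y696.Art c art := ⟨h.surj, h.unr, h.frob⟩
    have hun := Pool.Agent.T9h31.Ab.un_of_art hA hc
    have hnF : Module.finrank F K = 3 ^ n := Pool.Agent.T9h31.Sm.deg_big3 hn h2
    obtain ⟨p1, p2⟩ := Pool.Agent.T9h31.Sm.pts_small (F := F) (K := K) (k := k) hnF hun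
    obtain ⟨L, l1, l2, l3, l4, l5⟩ := Pool.Agent.T9h31.Sm.analytic_small3 hn h2 hA hc
    exact ⟨⟨L, l1, l2, l3, l4, fun Λ ω hΛ => l5 Λ hΛ.g₂ hΛ.g₃ ω hΛ.real⟩, p1, p2,
      Pool.Agent.T9h31.Sm.sha_small (F := F) (K := K) hnF hun h2, fun v =>
      ⟨Pool.Agent.T9h31.Sm.min_small (F := F) (K := K) hun v,
        Pool.Agent.T9h31.Sm.red_small (F := F) (K := K) hnF hun v⟩⟩
  refine ⟨?_, fun k _ _ n hn F K _ _ _ _ _ _ _ _ h2 c art h hc =>
    key k n hn F K h2 c art h hc, ?_⟩
  · obtain ⟨Λ, ω, h1, h2, h3⟩ := Pool.Agent.T9h31.Sm.exists_periods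
    exact ⟨Λ, ω, h1, h2, h3⟩
  · intro m _ M _ _ _ k n hn h
    obtain ⟨F, K, i1, i2, i3, i4, i5, i6, i7, i8, h2, art, ha, hc⟩ :=
      Pool.Agent.T9h31.Sm.cyc_tower k hn h
    exact key k n hn F K h2 _ art ha hc

end Pool.Agent.T9h31.Moved.ThreePartWithoutCubeRoots
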